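import Pool.Agent.helper36.MP.SpecN

set_option autoImplicit false

open Complex Metric Set Filter Topology MeasureTheory

noncomputable section

namespace MPS

theorem NI (hNU : NU_stmt) (hNH : NH_stmt) : NI_stmt := by
  intro k _ b g i ψ r hψ u₁ hu₁ u₂ hu₂ heq
  by_cases h1 : u₁ = 0
  · by_cases h2 : u₂ = 0
    · rw [h1, h2]
    · exfalso
      have := hψ.av u₂ hu₂ h2 i
      rw [← heq, h1, hψ.val] at this
      exact this rfl
  by_cases h2 : u₂ = 0
  · exfalso
    have := hψ.av u₁ hu₁ h1 i
    rw [heq, h2, hψ.val] at this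
    exact this rfl
  -- both nonzero
  obtain ⟨hnat, -, -, -⟩ := hNH k b g i ψ r hψ
  have hr := hψ.pos
  have hΩ : IsOpen {w : ℂ | w.re < Real.log r} := isOpen_lt Complex.continuous_re continuous_const
  have hmem : ∀ u : ℂ, u ∈ ball (0 : ℂ) r → u ≠ 0 → Complex.log u ∈ {w : ℂ | w.re < Real.log r} := by
    intro u hu hu0
    simp only [mem_setOf_eq, Complex.log_re]
    apply Real.log_lt_log (norm_pos_iff.mpr hu0)
    simpa using hu
  have hw1 := hmem u₁ hu₁ h1
  have hw2 := hmem u₂ hu₂ h2
  have hv1 : hat ψ (Complex.log u₁) = ψ u₁ := by unfold hat; rw [Complex.exp_log h1]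
  have hv2 : hat ψ (Complex.log u₂) = ψ u₂ := by unfold hat; rw [Complex.exp_log h2]
  obtain ⟨s, hs, -, hK, hseg⟩ := hNU k b g (hat ψ) (hat ψ) _ _ (Complex.log u₁) (Complex.log u₂)
    hΩ hΩ hnat hnat hw1 hw2 (by rw [hv1, hv2, heq])
  simp only [mem_setOf_eq] at hw1 hw2
  rcases hs with hs | hs
  · -- s = 1
    subst hs
    have hagree : ∀ t : ℝ, 0 ≤ t → t ≤ 1 → ψ (u₁ * t) = ψ (u₂ * t) := by
      intro t ht0 ht1
      rcases ht0.eq_or_lt with ht | ht
      · rw [← ht]; simp
      have hlog : Real.log t ≤ 0 := Real.log_nonpos ht0 ht1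
      have h3 := (hseg (Real.log t : ℂ) (by
        intro τ hτ
        have h4 : τ * Real.log t ≤ 0 := mul_nonpos_of_nonneg_of_nonpos hτ.1 hlog
        constructor
        · simp only [mem_setOf_eq, Complex.add_re]
          have : ((τ : ℂ) * (Real.log t : ℂ)).re = τ * Real.log t := by
            rw [← Complex.ofReal_mul, Complex.ofReal_re]
          rw [this]; linarith
        · simp only [mem_setOf_eq, Complex.add_re, one_mul]
          have : ((τ : ℂ) * (Real.log t : ℂ)).re = τ * Real.log t := by
            rw [← Complex.ofReal_mul, Complex.ofReal_re]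
          rw [this]; linarith)).1
      unfold hat at h3
      rw [one_mul, Complex.exp_add, Complex.exp_add, Complex.exp_log h1, Complex.exp_log h2,
        ← Complex.ofReal_exp, Real.exp_log ht] at h3
      exact h3
    have hdψ : HasDerivAt ψ (deriv ψ 0) 0 :=
      ((hψ.diff 0 (mem_ball_self hr)).differentiableAt (ball_mem_nhds _ hr)).hasDerivAt
    have hder : ∀ u : ℂ, HasDerivAt (fun t : ℝ => ψ (u * t)) (deriv ψ 0 * u) 0 := by
      intro u
      have hlin : HasDerivAt (fun t : ℝ => u * (t : ℂ)) u 0 := by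
        have := (Complex.ofRealCLM.hasDerivAt (x := (0:ℝ))).const_mul u
        simpa using this
      have hdψ' : HasDerivAt ψ (deriv ψ 0) (u * ((0 : ℝ) : ℂ)) := by simpa using hdψ
      exact hdψ'.comp (0 : ℝ) hlin
    have e1 := (hder u₁).hasDerivWithinAt (s := Icc (0:ℝ) 1)
    have e2 := (hder u₂).hasDerivWithinAt (s := Icc (0:ℝ) 1)
    have e3 : HasDerivWithinAt (fun t : ℝ => ψ (u₁ * t)) (deriv ψ 0 * u₂) (Icc (0:ℝ) 1) 0 := by
      apply e2.congr
      · intro t ht
        exact hagree t ht.1 ht.2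
      · simp
    have hud : UniqueDiffWithinAt ℝ (Icc (0:ℝ) 1) 0 :=
      uniqueDiffOn_Icc zero_lt_one 0 (by simp)
    have e4 := hud.eq_deriv _ e1 e3
    exact mul_left_cancel₀ hψ.der e4
  · -- s = -1
    subst hs
    exfalso
    have h3 := (hseg ((Complex.log u₂ - Complex.log u₁) / 2) (by
      intro τ hτ
      have h4 : ((τ : ℂ) * ((Complex.log u₂ - Complex.log u₁) / 2)).re =
          τ * (((Complex.log u₂).re - (Complex.log u₁).re) / 2) := by
        rw [Complex.re_ofReal_mul]
        congr 1
        simp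
      constructor
      · simp only [mem_setOf_eq, Complex.add_re]
        rw [h4]
        nlinarith [hτ.1, hτ.2]
      · simp only [mem_setOf_eq, Complex.add_re, neg_mul, one_mul, Complex.neg_re]
        rw [h4]
        nlinarith [hτ.1, hτ.2])).2
    have hm : Complex.log u₁ + (Complex.log u₂ - Complex.log u₁) / 2 =
        (Complex.log u₁ + Complex.log u₂) / 2 := by ring
    have hm' : Complex.log u₂ + -1 * ((Complex.log u₂ - Complex.log u₁) / 2) =
        (Complex.log u₁ + Complex.log u₂) / 2 := by ring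
    rw [hm, hm'] at h3
    have h5 : deriv (hat ψ) ((Complex.log u₁ + Complex.log u₂) / 2) = 0 := by
      linear_combination (1/2 : ℂ) * h3
    have h6 := hnat.eq ((Complex.log u₁ + Complex.log u₂) / 2) (by
      simp only [mem_setOf_eq]
      have : ((Complex.log u₁ + Complex.log u₂) / 2).re =
        ((Complex.log u₁).re + (Complex.log u₂).re) / 2 := by simp
      rw [this]; linarith)
    rw [h5] at h6
    simp at h6

end MPS
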