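import Pool.Agent.helper36.MP.SpecN

set_option autoImplicit false

open Complex Metric Set Filter Topology MeasureTheory

noncomputable section

namespace MPS

theorem TG_fd_ne {n : ℕ} {z : ℂ} (hn : 2 ≤ n) (hz : z ≠ 0) : fd n z ≠ 0 := by
  unfold fd
  apply mul_ne_zero
  · exact_mod_cast (by omega : n ≠ 0)
  · exact pow_ne_zero _ hz

theorem TG_hom {k : ℕ} [NeZero k] (a g : ZMod k → ℂ) (ha : ∀ i, a i ≠ 0) (hp : ∏ i, a i ≠ 1)
    (hg : ∀ i, g (i + 1) = a i * g i) : g = 0 := by
  by_contra hne
  have hall : ∀ j, g j ≠ 0 := by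
    intro j hj
    apply hne
    funext i
    have key : ∀ m : ℕ, g (j + (m : ZMod k)) = 0 := by
      intro m
      induction m with
      | zero => simpa using hj
      | succ m ih =>
        have := hg (j + (m : ZMod k))
        rw [ih, mul_zero] at this
        rw [Nat.cast_succ, ← add_assoc]
        exact this
    have h1 := key (i - j).val
    rw [ZMod.natCast_zmod_val] at h1
    simpa using h1
  have h1 : ∏ i, g (i + 1) = (∏ i, a i) * ∏ i, g i := by
    rw [← Finset.prod_mul_distrib]
    exact Finset.prod_congr rfl fun i _ => hg i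
  have h2 : ∏ i, g (i + 1) = ∏ i, g i :=
    Fintype.prod_equiv (Equiv.addRight (1 : ZMod k)) _ _ (fun i => by simp)
  have h3 : ∏ i, g i ≠ 0 := Finset.prod_ne_zero_iff.mpr fun i _ => hall i
  rw [h2] at h1
  apply hp
  have h4 : (∏ i, a i) * ∏ i, g i = 1 * ∏ i, g i := by rw [← h1, one_mul]
  exact mul_right_cancel₀ h3 h4

theorem TG : TG_stmt := by
  intro n k _ c b hn hb hrho
  have hfd : ∀ i, fd n (b i) ≠ 0 := fun i => TG_fd_ne hn (hb.ne0 i)
  let L : (ZMod k → ℂ) →ₗ[ℂ] (ZMod k → ℂ) :=
    { toFun := fun g i => g (i + 1) - g i / fd n (b i)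
      map_add' := by
        intro x y
        funext i
        simp only [Pi.add_apply]
        ring
      map_smul' := by
        intro r x
        funext i
        simp only [Pi.smul_apply, smul_eq_mul, RingHom.id_apply]
        ring }
  have hL : ∀ g i, L g i = g (i + 1) - g i / fd n (b i) := fun g i => rfl
  have hinj : Function.Injective L := by
    rw [← LinearMap.ker_eq_bot, LinearMap.ker_eq_bot']
    intro g hg
    apply TG_hom (fun i => (fd n (b i))⁻¹) g
    · intro i
      exact inv_ne_zero (hfd i)
    · rw [Finset.prod_inv_distrib]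
      intro h
      apply hrho
      unfold rho
      exact inv_eq_one.mp h
    · intro i
      have h1 := congrFun hg i
      rw [hL] at h1
      have h2 : g (i + 1) = g i / fd n (b i) := by
        simpa [sub_eq_zero] using h1
      rw [h2, div_eq_mul_inv, mul_comm]
  have hsurj : Function.Surjective L := LinearMap.injective_iff_surjective.mp hinj
  obtain ⟨g, hg⟩ := hsurj (fun i => - (fdd n (b i) / fd n (b i) ^ 2))
  refine ⟨g, ?_, ?_⟩
  · intro i
    have h1 := congrFun hg i
    rw [hL] at h1
    linear_combination h1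
  · intro g' hg'
    apply hinj
    rw [hg]
    funext i
    rw [hL]
    have := hg' i
    linear_combination this

end MPS
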