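import Pool.Agent.helper36.MP.SpecN
import Pool.Agent.helper54.CR.Landau

set_option autoImplicit false

open Complex Metric Set Filter Topology MeasureTheory

noncomputable section

namespace MPS

theorem NLB : NLB_stmt := by
  intro k _ b g i l ψ r hb hli hψ
  have hr := hψ.pos
  have hD : b i - b l ≠ 0 := by
    intro h
    exact hli (hb (sub_eq_zero.mp h)).symm
  have h0m : (0 : ℂ) ∈ ball (0 : ℂ) r := mem_ball_self hr
  have hne : ∀ u ∈ ball (0 : ℂ) r, ψ u ≠ b l := by
    intro u hu
    by_cases h : u = 0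
    · rw [h, hψ.val]
      exact sub_ne_zero.mp hD
    · exact hψ.av u hu h l
  have hFd : DifferentiableOn ℂ (fun u => (ψ u - b l) / (b i - b l)) (ball 0 r) :=
    (hψ.diff.sub_const _).div_const _
  have hF0 : ∀ u ∈ ball (0 : ℂ) r, (fun u => (ψ u - b l) / (b i - b l)) u ≠ 0 := by
    intro u hu
    exact div_ne_zero (sub_ne_zero.mpr (hne u hu)) hD
  obtain ⟨s, hsd, hs0, hs⟩ := Pool.Agent.helper98.ILF.exists_lift_pow (n := 2) two_ne_zero
    (u := 1) hr hFd hF0 (by simp only [one_pow]; rw [hψ.val, div_self hD])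
  have hsd0 : HasDerivAt s (deriv s 0) 0 :=
    ((hsd 0 h0m).differentiableAt (ball_mem_nhds _ hr)).hasDerivAt
  have hψd0 : HasDerivAt ψ (deriv ψ 0) 0 :=
    ((hψ.diff 0 h0m).differentiableAt (ball_mem_nhds _ hr)).hasDerivAt
  -- Landau
  have hl := Pool.Agent.helper54.CR.landau (F := fun u => - s u) (w := 0) hr hsd.neg
    (by
      intro z hz h
      have h1 := hs z hz
      have h2 : s z = 0 := neg_eq_zero.mp h
      rw [h2] at h1
      exact hF0 z hz (by show (ψ z - b l) / (b i - b l) = 0; rw [← h1]; simp))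
    (by
      intro z hz h
      have h2 : s z = -1 := by linear_combination -h
      have h1 := hs z hz
      rw [h2] at h1
      have h3 : ψ z = b i := by
        have h4 : (ψ z - b l) / (b i - b l) = 1 := by rw [← h1]; norm_num
        rw [div_eq_one_iff_eq hD] at h4
        linear_combination h4
      have h5 : z = 0 := by
        by_contra hz0
        exact hψ.av z hz hz0 i h3
      rw [h5, hs0] at h2
      norm_num at h2)
  have hd1 : deriv (fun u => - s u) 0 = - deriv s 0 := hsd0.neg.deriv
  rw [hd1, hs0] at hl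
  simp only [norm_neg, norm_one, Real.log_one, abs_zero, add_zero, mul_one, neg_div_neg_eq, div_one] at hl
  -- derivative of s ^ 2 = F
  have hd2 : HasDerivAt (fun u => s u ^ 2) (2 * s 0 ^ 1 * deriv s 0) 0 := by
    have h := hsd0.mul hsd0
    have e : (fun u => s u ^ 2) = fun u => s u * s u := by funext u; ring
    rw [e]
    refine h.congr_deriv ?_
    ring
  have hd3 : HasDerivAt (fun u => (ψ u - b l) / (b i - b l)) (deriv ψ 0 / (b i - b l)) 0 :=
    (hψd0.sub_const _).div_const _
  have hd4 : HasDerivAt (fun u => s u ^ 2) (deriv ψ 0 / (b i - b l)) 0 := by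
    apply hd3.congr_of_eventuallyEq
    filter_upwards [ball_mem_nhds (0:ℂ) hr] with u hu
    exact hs u hu
  have h6 := hd2.unique hd4
  rw [hs0] at h6
  have h7 : deriv ψ 0 = 2 * deriv s 0 * (b i - b l) := by
    field_simp at h6
    linear_combination -h6
  rw [h7, norm_mul, norm_mul]
  have h8 : ‖(2 : ℂ)‖ = 2 := by simp
  rw [h8]
  have h9 : ‖deriv s 0‖ * r ≤ 4000 := by
    rwa [le_div_iff₀ hr] at hl
  nlinarith [norm_nonneg (b i - b l), norm_nonneg (deriv s 0), h9]

end MPS
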